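import Pool.Agent.Helper94_CBG.Ort

/-!
# Squad CBG, part B: conformal actions satisfy the hypotheses of OrthogonalBerger
-/

set_option autoImplicit false
set_option maxSynthPendingDepth 3

open scoped Manifold ContDiff Topology
open Set Filter

namespace Pool.Agent.Helper94_CBGC

open Pool.Agent Pool.Agent.CBG.Short

/-- If every element of the torus acts by a conformal map, the hypotheses of OrthogonalBerger hold. -/
theorem conformal (n : ℕ) (E : Type) [TopologicalSpace E] [T2Space E]
    [ChartedSpace (EuclideanSpace ℝ (Fin n)) E] [IsManifold (𝓡 n) ∞ E]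
    [MulAction (Circle × Circle) E] (hsmooth : SmoothTorus (EuclideanSpace ℝ (Fin n)) E)
    (hfin : FiniteIsotropy E) (g : Met (EuclideanSpace ℝ (Fin n)) E)
    (hconf : ∀ θ : Circle × Circle, Conf g (act θ)) :
    ∃ L : Submodule ℝ (ℝ × ℝ), L ≠ ⊥ ∧ Odd (n + Module.finrank ℝ L) ∧ PreservesHor g L ∧
      ∀ (x : E), ∀ a ∈ L, a ≠ 0 → ∃ p : E, len g a p ≤ len g a x ∧ ExpandsHor g L p := by
  have hT : CBG.TAct (n := n) (CBG.tor E) := CBG.H87.exp n E hsmooth hfin
  obtain ⟨-, -, -, v4, -, v6⟩ := CBG.H87.vfx n E (CBG.tor E) hT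
  -- the conformal factors
  have hpush : ∀ (t : ℝ × ℝ) (b : ℝ × ℝ) (p : E),
      dE (act (ex t)) p (fund (EuclideanSpace ℝ (Fin n)) b p) =
        fund (EuclideanSpace ℝ (Fin n)) b (act (ex t) p) := fun t b p => v4 t b p
  have hpos : ∀ (a : ℝ × ℝ) (p : E), a ≠ 0 → 0 < len g a p := fun a p ha => v6 g a p ha
  have hA : ∀ L : Submodule ℝ (ℝ × ℝ), PreservesHor g L := by
    intro L t _ p u hu b hb
    obtain ⟨c, _, hc⟩ := hconf (ex t) p
    rw [← hpush, hc, hu b hb, mul_zero]
  have hB : ∀ L : Submodule ℝ (ℝ × ℝ), ∀ (x : E), ∀ a ∈ L, a ≠ 0 →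
      ∃ p : E, len g a p ≤ len g a x ∧ ExpandsHor g L p := by
    intro L x a _ ha
    have hc1 : Continuous (fun θ : Circle × Circle => θ • x) := by
      have h1 : Continuous (fun q : (Circle × Circle) × E => q.1 • q.2) := hsmooth.continuous
      exact h1.comp (continuous_id.prodMk continuous_const)
    have hc2 : Continuous (fun p : E => len g a p) := CBG.H87.hct n E (CBG.tor E) hT g a a
    obtain ⟨η, -, hη⟩ := isCompact_univ.exists_isMinOn (univ_nonempty)
      ((hc2.comp hc1).continuousOn (s := univ))
    have hmin : ∀ θ : Circle × Circle, len g a (η • x) ≤ len g a (θ • x) := fun θ =>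
      hη (mem_univ θ)
    refine ⟨η • x, ?_, ?_⟩
    · have := hmin 1
      rwa [one_smul] at this
    · intro t _ u _
      obtain ⟨c, _, hc⟩ := hconf (ex t) (η • x)
      have e1 : len g a (act (ex t) (η • x)) = c * len g a (η • x) := by
        have := hc (fund _ a (η • x)) (fund _ a (η • x))
        rw [hpush] at this
        exact this
      have h2 : len g a (η • x) ≤ len g a (act (ex t) (η • x)) := by
        have := hmin (ex t * η)
        rw [mul_smul] at this
        exact this
      have h3 := hpos a (η • x) ha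
      have h4 : 1 ≤ c := by
        rw [e1] at h2
        by_contra h
        push Not at h
        nlinarith
      have h5 : 0 ≤ val (form g (η • x)) u u := by
        by_cases hu : u = 0
        · rw [hu]
          simp [val]
        · exact (g.pos (η • x) u hu).le
      rw [hc]
      nlinarith
  rcases Nat.even_or_odd n with he | ho
  · refine ⟨Submodule.span ℝ {((1 : ℝ), (0 : ℝ))}, ?_, ?_, hA _, hB _⟩
    · rw [Ne, Submodule.span_singleton_eq_bot]
      intro h
      have := congrArg Prod.fst h
      simp at this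
    · rw [finrank_span_singleton (by
        intro h
        have := congrArg Prod.fst h
        simp at this)]
      exact he.add_one
  · refine ⟨⊤, ?_, ?_, hA _, hB _⟩
    · intro h
      have h1 : ((1 : ℝ), (0 : ℝ)) ∈ (⊤ : Submodule ℝ (ℝ × ℝ)) := Submodule.mem_top
      rw [h, Submodule.mem_bot] at h1
      have := congrArg Prod.fst h1
      simp at this
    · rw [finrank_top]
      have : Module.finrank ℝ (ℝ × ℝ) = 2 := by simp
      rw [this]
      exact ho.add_even (by decide)

end Pool.Agent.Helper94_CBGC
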