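import Pool.Agent.Helper87_CBG.Fin
import Pool.Agent.Helper53_CBG.SKW
import Pool.Agent.Helper53_CBG.ORT
import Pool.Agent.Helper75_CBG.WPR
import Pool.Agent.Helper5_CBG.LOC
import Pool.Agent.Helper30_CBG.THH
import Pool.Agent.Helper16_CBG.MNH
import Pool.Agent.Helper60_CBG.DEC
import Pool.Agent.Helper60_CBG.GLH
import Pool.Agent.Helper46_CBG.PSR
import Pool.Agent.Helper52_CBG.ORX

/-!
# Squad CBG, part B: assembly of the orthogonal theorem
-/

set_option autoImplicit false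

namespace Pool.Agent.CBG.H94

open Pool.Agent.CBG

theorem skw : SkwStmt := Pool.Agent.CBG.H53.skw

theorem ort : OrtStmt := Pool.Agent.CBG.H53.ort

theorem wpr : WprStmt := Pool.Agent.CBG.H75.wpr

theorem loc : LocStmt := Pool.Agent.CBG.H5.loc CBG.H87.soc CBG.H87.sym skw ort wpr

theorem thh : ThhStmt :=
  Pool.Agent.CBG.H30.thh CBG.H87.chx CBG.H87.pua CBG.H87.pus CBG.H87.vfx CBG.H87.psi CBG.H87.dtx loc

theorem mnh : MnhStmt := Pool.Agent.CBG.H16.mnh CBG.H87.vfx CBG.H87.hct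

theorem dec : DecStmt := Pool.Agent.CBG.H60.dec CBG.H87.vfx ort

theorem glh : GlhStmt := Pool.Agent.CBG.H60.glh CBG.H87.vfx thh mnh dec

theorem psr : PsrStmt := Pool.Agent.CBG.H46.psr CBG.H87.vfx dec glh

theorem orx : OrxStmt := Pool.Agent.CBG.H52.orx thh glh CBG.H87.cgl psr CBG.H87.exp

end Pool.Agent.CBG.H94
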