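import Pool.Agent.Helper87_CBG.Thn
import Pool.Agent.Helper25_CBG.QLO
import Pool.Agent.CBG.Close

/-!
# Squad CBG: the stability theorem with `sec ≥ K`

The proofs are those of the rows QLO (helper25) and QGL (helper81), with a constant `K`.
-/

set_option autoImplicit false
set_option maxSynthPendingDepth 3

open scoped Manifold ContDiff Topology
open Set Filter MeasureTheory

namespace Pool.Agent.CBG.H94K

open Pool.Agent.CBG
open Pool.Agent.CBG.H25 (cd_H gram_on)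

/-- all sectional curvatures of `G` at `x` are at least `K` -/
def KAt {V : Type*} [NormedAddCommGroup V] [NormedSpace ℝ V] (K : ℝ) (G : V → Bil V) (x : V) :
    Prop :=
  ∀ v w a b c : V, IsChr G x v w a → IsChr G x v v b → IsChr G x w w c →
    K * (G x v v * G x w w - G x v w ^ 2) ≤ curv G x v w a b c

theorem bsl {V : Type*} [NormedAddCommGroup V] [NormedSpace ℝ V] (B : Bil V) (x y z : V) :
    B (x - y) z = B x z - B y z := by
  rw [map_sub B x y]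
  rfl

theorem bsr {V : Type*} [NormedAddCommGroup V] [NormedSpace ℝ V] (B : Bil V) (x y z : V) :
    B x (y - z) = B x y - B x z := map_sub (B x) y z

theorem bal {V : Type*} [NormedAddCommGroup V] [NormedSpace ℝ V] (B : Bil V) (x y z : V) :
    B (x + y) z = B x z + B y z := by
  rw [map_add B x y]
  rfl

theorem bar {V : Type*} [NormedAddCommGroup V] [NormedSpace ℝ V] (B : Bil V) (x y z : V) :
    B x (y + z) = B x y + B x z := map_add (B x) y z

/-- the averaged curvature estimate with the variances of the Christoffel vectors -/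
theorem qlk (hCHX : ChxStmt) (hGRM : GrmStmt) (hGSO : GsoStmt) (hSYM : SymStmt) (hBRG : BrgStmt)
    (hBAS : BasStmt) (hJET : JetStmt) (hSBD : SbdStmt) (hMU0 : Mu0Stmt) (hUNI : UniStmt)
    (hQAV : QavStmt) (n : ℕ) (H : ℝ × ℝ → Ed n → Bil (Ed n)) (X : ℝ × ℝ →L[ℝ] Ed n)
    (hD : Dat n H X) (R : Ed n → Bil (Ed n)) (hR2 : ContDiffAt ℝ 2 R 0)
    (hRs : ∀ᶠ y in 𝓝 (0 : Ed n), ∀ v w : Ed n, R y v w = R y w v)
    (hRp : ∀ v : Ed n, v ≠ 0 → 0 < R 0 v v) (K ε lam : ℝ) (hε : 0 ≤ ε) (hlam : 0 < lam)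
    (hK : 0 < K) (hbd : 9 * ε ^ 2 * lam ^ 6 < 2 * K) (hOne : ∀ t, KAt K (H t) 0)
    (hlow : ∀ t, ∀ v : Ed n, R 0 v v ≤ lam ^ 2 * H t 0 v v)
    (hcov : ∀ t, CovLe ε R (H t) 0)
    (hmax : ∀ᶠ y in 𝓝 (0 : Ed n), inv11 (fun a b => ∫ t, H t y (X a) (X b) ∂mu) ≤
      inv11 (fun a b => ∫ t, H t 0 (X a) (X b) ∂mu)) : False := by
  have hRs0 : ∀ v w : Ed n, R 0 v w = R 0 w v := hRs.self_of_nhds
  have hsymR := (hSYM n R hR2 hRs).1
  obtain ⟨hprob, hint, -, -⟩ := hMU0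
  obtain ⟨-, hchr⟩ := hCHX
  obtain ⟨grm1, -, -⟩ := hGRM
  set G : Ed n → Bil (Ed n) := fun y => ∫ t, H t y ∂mu with hGdef
  obtain ⟨hG2, hGs, hGp, hGinv, hG0, hG1, hGlin⟩ := hQAV n H X hD G (fun y => rfl)
  have hmax' : ∀ᶠ y in 𝓝 (0 : Ed n),
      inv11 (fun a b => G y (X a) (X b)) ≤ inv11 (fun a b => G 0 (X a) (X b)) := by
    have hU := hUNI n H X hD
    have hU0 := hU.self_of_nhds
    filter_upwards [hU, hmax] with y hy hm
    have e : ∀ y : Ed n, Continuous (fun t => H t y) → ∀ a b : ℝ × ℝ,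
        G y (X a) (X b) = ∫ t, H t y (X a) (X b) ∂mu := by
      intro y hc a b
      have i1 : Integrable (fun t => H t y) mu := hint (Bil (Ed n)) _ hc
      have i2 : Integrable (fun t => H t y (X a)) mu :=
        hint (Ed n →L[ℝ] ℝ) _ (hc.clm_apply continuous_const)
      show (∫ t, H t y ∂mu) (X a) (X b) = _
      rw [ContinuousLinearMap.integral_apply i1, ContinuousLinearMap.integral_apply i2]
    simp only [e y hy.2, e 0 hU0.2]
    exact hm
  obtain ⟨v0, z0, hli, hneg⟩ := hBRG n G X hG2 hGs hGp hD.inj hGinv hmax'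
  obtain ⟨⟨a0, ha0⟩, -⟩ := hchr n G 0 hGp v0 z0
  obtain ⟨⟨b0, hb0⟩, -⟩ := hchr n G 0 hGp v0 v0
  obtain ⟨⟨c0, hc0⟩, -⟩ := hchr n G 0 hGp z0 z0
  have hneg0 := hneg a0 b0 c0 ha0 hb0 hc0
  obtain ⟨p, r, s, hp, hs, hpp, hzz, hpz⟩ :=
    hGSO n (R 0) v0 z0 hRs0 hRp hli
  obtain ⟨a', b', c', ha', hb', hc', hcurv⟩ :=
    hBAS n G hG2 hGs v0 z0 a0 b0 c0 ha0 hb0 hc0 p 0 r s
  rw [zero_smul, add_zero] at ha' hb' hcurv
  set v : Ed n := p • v0 with hv
  set z : Ed n := r • v0 + s • z0 with hz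
  have hcurv' : curv G 0 v z a' b' c' ≤ 0 := by
    rw [hcurv]
    exact mul_nonpos_of_nonneg_of_nonpos (sq_nonneg _) hneg0
  obtain ⟨⟨a, ha⟩, -⟩ := hchr n R 0 hRp v z
  obtain ⟨⟨b, hb⟩, -⟩ := hchr n R 0 hRp v v
  obtain ⟨⟨c, hc⟩, -⟩ := hchr n R 0 hRp z z
  set m : ℝ := 9 / 4 * ε ^ 2 * lam ^ 2 with hm
  set κ : ℝ := (lam ^ 2)⁻¹ with hκ
  have hl2 : 0 < lam ^ 2 := by positivity
  have hκ0 : 0 < κ := inv_pos.2 hl2
  have hsymH : ∀ t, ∀ u v w : Ed n, fderiv ℝ (H t) 0 u v w = fderiv ℝ (H t) 0 u w v := fun t =>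
    (hSYM n (H t) (cd_H hD t) (Filter.Eventually.of_forall (hD.symm t))).1
  have hps : ∀ t x, 0 ≤ H t 0 x x := by
    intro t x
    by_cases hx : x = 0
    · rw [hx]
      simp
    · exact (hD.pos t x hx).le
  have hsc : ∀ C : ℝ, ∫ _ : ℝ × ℝ, C ∂mu = C := by
    intro C
    have := hprob
    rw [integral_const, probReal_univ, one_smul]
  have hicst : ∀ C : ℝ, Integrable (fun _ : ℝ × ℝ => C) mu := fun C =>
    hint ℝ _ continuous_const
  have hGs0 : ∀ v w : Ed n, G 0 v w = G 0 w v := hGs.self_of_nhds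
  have hpsG : ∀ x, 0 ≤ G 0 x x := by
    intro x
    by_cases hx : x = 0
    · rw [hx]
      simp
    · exact (hGp x hx).le
  -- the upper bound of the variance
  have hV : ∀ x y e e' : Ed n, R 0 x x * R 0 y y = 1 → IsChr R 0 x y e → IsChr G 0 x y e' →
      ∃ V : ℝ × ℝ → ℝ, Integrable V mu ∧ ∫ t, V t ∂mu ≤ m ∧
        ∀ t et, IsChr (H t) 0 x y et → H t 0 (et - e') (et - e') ≤ V t := by
    intro x y e e' hn he he'
    set u : Ed n := e' - e with hu
    have ci : Continuous (fun t => chr (H t) 0 x y u) := by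
      unfold chr
      exact (((hG1 x y u).1.add (hG1 y x u).1).sub (hG1 u x y).1).div_const 2
    have ei : ∫ t, chr (H t) 0 x y u ∂mu = G 0 e' u := by
      rw [he' u]
      unfold chr
      have i1 := hint ℝ _ (hG1 x y u).1
      have i2 := hint ℝ _ (hG1 y x u).1
      have i3 := hint ℝ _ (hG1 u x y).1
      have j1 := integral_add i1 i2
      have j2 := integral_sub (i1.add i2) i3
      simp only [Pi.add_apply] at j2
      rw [integral_div, j2, j1, (hG1 x y u).2, (hG1 y x u).2, (hG1 u x y).2]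
    have i0 := hint ℝ _ ci
    have i4 := hint ℝ _ (hG0 e u).1
    have i5 := hint ℝ _ (hG0 u u).1
    refine ⟨fun t => (m - 2 * (chr (H t) 0 x y u - H t 0 e u)) + H t 0 u u,
      ((hicst m).sub ((i0.sub i4).const_mul 2)).add i5, ?_, ?_⟩
    · have j1 : ∫ t, ((m - 2 * (chr (H t) 0 x y u - H t 0 e u)) + H t 0 u u) ∂mu =
          ∫ t, (m - 2 * (chr (H t) 0 x y u - H t 0 e u)) ∂mu + ∫ t, H t 0 u u ∂mu :=
        integral_add ((hicst m).sub ((i0.sub i4).const_mul 2)) i5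
      have j2 : ∫ t, (m - 2 * (chr (H t) 0 x y u - H t 0 e u)) ∂mu =
          ∫ _ : ℝ × ℝ, m ∂mu - ∫ t, 2 * (chr (H t) 0 x y u - H t 0 e u) ∂mu :=
        integral_sub (hicst m) ((i0.sub i4).const_mul 2)
      have j3 : ∫ t, (chr (H t) 0 x y u - H t 0 e u) ∂mu =
          ∫ t, chr (H t) 0 x y u ∂mu - ∫ t, H t 0 e u ∂mu := integral_sub i0 i4
      have j4 : ∫ t, 2 * (chr (H t) 0 x y u - H t 0 e u) ∂mu =
          2 * ∫ t, (chr (H t) 0 x y u - H t 0 e u) ∂mu := integral_const_mul _ _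
      rw [j1, j2, j4, j3, hsc m, ei, ← (hG0 e u).2, ← (hG0 u u).2]
      have h1 : G 0 u u = G 0 e' u - G 0 e u := bsl (G 0) e' e u
      have h2 := hpsG u
      linarith
    · intro t et het
      have s1 := hSBD n R (H t) hRs0 (hD.symm t 0) hsymR (hsymH t) hRp ε lam
        hε (hlow t) (hcov t) x y e et he het
      rw [hn, mul_one] at s1
      have h1 : et - e' = (et - e) - u := by
        rw [hu]
        abel
      have h2 : H t 0 (et - e) u = chr (H t) 0 x y u - H t 0 e u := by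
        rw [bsl (H t 0) et e u, het u]
      have h3 : H t 0 (et - e') (et - e') =
          H t 0 (et - e) (et - e) - 2 * H t 0 (et - e) u + H t 0 u u := by
        rw [h1, bsl (H t 0) (et - e) u, bsr (H t 0) (et - e) (et - e) u,
          bsr (H t 0) u (et - e) u, hD.symm t 0 u (et - e)]
        ring
      rw [h3, h2]
      linarith
  obtain ⟨V1, i1, l1, k1⟩ := hV v z a a' (by rw [hpp, hzz, mul_one]) ha ha'
  obtain ⟨V2, i2, l2, k2⟩ := hV v v b b' (by rw [hpp, mul_one]) hb hb'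
  obtain ⟨V3, i3, l3, k3⟩ := hV z z c c' (by rw [hzz, mul_one]) hc hc'
  have key : ∀ t, K * κ ^ 2 - (V1 t + (V2 t + V3 t) / 2) ≤ lin (H t) v z a' b' c' := by
    intro t
    obtain ⟨⟨at', hat⟩, -⟩ := hchr n (H t) 0 (hD.pos t) v z
    obtain ⟨⟨bt, hbt⟩, -⟩ := hchr n (H t) 0 (hD.pos t) v v
    obtain ⟨⟨ct, hct⟩, -⟩ := hchr n (H t) 0 (hD.pos t) z z
    have e1 := hJET n (H t) (hD.symm t 0) v z a' b' c' at' bt ct hat hbt hct
    have e2 := hOne t v z at' bt ct hat hbt hct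
    have e3 := grm1 n (H t 0) v z κ (hD.symm t 0) hκ0.le (by
      intro x y
      have h1 := hlow t (x • v + y • z)
      rw [gram_on hRs0 hpp hzz hpz x y] at h1
      have h2 : κ * (x ^ 2 + y ^ 2) ≤ κ * (lam ^ 2 * H t 0 (x • v + y • z) (x • v + y • z)) :=
        mul_le_mul_of_nonneg_left h1 hκ0.le
      rw [← mul_assoc, hκ, inv_mul_cancel₀ hl2.ne', one_mul] at h2
      exact h2)
    have s1 := k1 t at' hat
    have s2 := k2 t bt hbt
    have s3 := k3 t ct hct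
    have s4 := hps t ((bt - b') + (ct - c'))
    have s5 : H t 0 ((bt - b') + (ct - c')) ((bt - b') + (ct - c')) =
        H t 0 (bt - b') (bt - b') + 2 * H t 0 (bt - b') (ct - c') +
          H t 0 (ct - c') (ct - c') := by
      rw [bal (H t 0) (bt - b') (ct - c'), bar (H t 0) (bt - b') (bt - b') (ct - c'),
        bar (H t 0) (ct - c') (bt - b') (ct - c'), hD.symm t 0 (ct - c') (bt - b')]
      ring
    rw [s5] at s4
    have e3' := mul_le_mul_of_nonneg_left e3 hK.le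
    linarith
  have keyG : K * κ ^ 2 - 2 * m ≤ lin G v z a' b' c' := by
    obtain ⟨h1, h2⟩ := hGlin v z a' b' c'
    have iV : Integrable (fun t => V1 t + (V2 t + V3 t) / 2) mu := i1.add ((i2.add i3).div_const 2)
    have h3 := integral_mono ((hicst (K * κ ^ 2)).sub iV) (hint ℝ _ h1) key
    have j1 := integral_sub (hicst (K * κ ^ 2)) iV
    have j2 := integral_add i1 ((i2.add i3).div_const 2)
    have j3 := integral_add i2 i3
    simp only [Pi.add_apply] at j2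
    rw [j2, integral_div, j3, hsc] at j1
    have h4 : ∫ t, ((fun _ : ℝ × ℝ => K * κ ^ 2) - fun t => V1 t + (V2 t + V3 t) / 2) t ∂mu =
        ∫ t, (K * κ ^ 2 - (V1 t + (V2 t + V3 t) / 2)) ∂mu := rfl
    rw [h4, j1, ← h2] at h3
    linarith
  have e1 := hJET n G hGs0 v z a' b' c' a' b' c' ha' hb' hc'
  rw [sub_self, sub_self, sub_self, map_zero, add_zero, sub_zero] at e1
  have h7 : K * κ ^ 2 ≤ 2 * m := by linarith
  have h8 : κ ^ 2 * (lam ^ 2) ^ 2 = 1 := by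
    rw [← mul_pow, hκ, inv_mul_cancel₀ hl2.ne', one_pow]
  have h9 : K * κ ^ 2 * (lam ^ 2) ^ 2 ≤ 2 * m * (lam ^ 2) ^ 2 :=
    mul_le_mul_of_nonneg_right h7 (by positivity)
  rw [mul_assoc, h8, hm] at h9
  nlinarith [h9, hbd]

section Glob

open Pool.Agent.CBG.H87

variable {n : ℕ} {E : Type} [TopologicalSpace E] [ChartedSpace (Ed n) E] [IsManifold (𝓡 n) ∞ E]

/-- all sectional curvatures of the metric are at least `K` -/
def SecGeK (K : ℝ) (g : Met (n := n) E) : Prop :=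
  ∀ (ψ : Ed n → E) (x : Ed n), Par ψ x → KAt K (pull g ψ) x

/-- `f^* g` is near to `g₀`: `g₀ ≤ lam² f^* g` and `|∇(f^* g)| ≤ ε`, `∇` and the norm of `g₀` -/
def Near (lam ε : ℝ) (g₀ g : Met (n := n) E) (f : E → E) : Prop :=
  ∀ (ψ : Ed n → E) (x : Ed n), Par ψ x →
    (∀ v : Ed n, pull g₀ ψ x v v ≤ lam ^ 2 * pull g (f ∘ ψ) x v v) ∧
    CovLe ε (pull g₀ ψ) (pull g (f ∘ ψ)) x

theorem qgk [T2Space E] [CompactSpace E] [Nonempty E] (Φ : ℝ × ℝ → E → E)
    (hΦ : TAct (n := n) Φ) (g₀ g : Met (n := n) E) (K ε lam : ℝ) (hε : 0 ≤ ε) (hlam : 0 < lam)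
    (hK : 0 < K) (h27 : 9 * ε ^ 2 * lam ^ 6 < 2 * K) (hnear : ∀ t, Near lam ε g₀ g (Φ t))
    (hsec : SecGeK K g) : False := by
  obtain ⟨p, hp⟩ := (max n E Φ hΦ g).2
  obtain ⟨ψ, X, hX, hψ0, hpar, heq, hvf⟩ := psi n E Φ hΦ p
  obtain ⟨hdat, hparT, hform⟩ := dtx n E Φ hΦ g ψ X hX hpar heq hvf
  have hform0 := hform.self_of_nhds
  obtain ⟨p1, p2, -, -, -⟩ := pua n E g₀
  have hR : ContDiffAt ℝ ∞ (pull g₀ ψ) 0 := smooth_pull g₀ ψ 0 hpar
  have hR2 : ContDiffAt ℝ 2 (pull g₀ ψ) 0 := by exact_mod_cast contDiffAt_infty.1 hR 2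
  refine qlk chx grm gso sym brg bas jet sbd mu0 uni qav n (fun t => pull g (Φ t ∘ ψ)) X hdat
    (pull g₀ ψ) hR2 (Eventually.of_forall fun y v w => p1 (Ed n) ψ y v w) (p2 ψ 0 hpar.2) K ε lam
    hε hlam hK h27 (fun t => hsec _ _ (hparT t))
    (fun t v => (hnear t ψ 0 hpar).1 v) (fun t => (hnear t ψ 0 hpar).2) ?_
  filter_upwards [hform] with y hy
  have e1 : (fun a b : ℝ × ℝ => ∫ t, pull g (Φ t ∘ ψ) y (X a) (X b) ∂mu) =
      fun a b => ∫ t, hh g Φ a b (Φ t (ψ y)) ∂mu := by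
    funext a b
    exact integral_congr_ae (Eventually.of_forall fun t => hy t a b)
  have e2 : (fun a b : ℝ × ℝ => ∫ t, pull g (Φ t ∘ ψ) 0 (X a) (X b) ∂mu) =
      fun a b => ∫ t, hh g Φ a b (Φ t p) ∂mu := by
    funext a b
    refine integral_congr_ae (Eventually.of_forall fun t => ?_)
    have := hform0 t a b
    rw [hψ0] at this
    exact this
  show inv11 (fun a b : ℝ × ℝ => ∫ t, pull g (Φ t ∘ ψ) y (X a) (X b) ∂mu) ≤
    inv11 (fun a b : ℝ × ℝ => ∫ t, pull g (Φ t ∘ ψ) 0 (X a) (X b) ∂mu)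
  rw [e1, e2]
  exact hp (ψ y)

theorem secGeK_of (K : ℝ) (g : Met (n := n) E) (h : Thin.SecAtLeast (V := Ed n) K g) :
    SecGeK K g := by
  intro ψ x hp v w a b c ha hb hc
  have hs := smooth_pull g ψ x hp
  have := h ψ x (chart_of_par hp) v w a b c ((chris_iff g ψ x hs v w a).2 ha)
    ((chris_iff g ψ x hs v v b).2 hb) ((chris_iff g ψ x hs w w c).2 hc)
  rwa [curv_eq g ψ x hs] at this

theorem pull_comp (g : Met (n := n) E) (f : E → E) (hf : ContMDiff (𝓡 n) (𝓡 n) ∞ f)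
    (ψ : Ed n → E) (x : Ed n) (hp : Par ψ x) (v : Ed n) :
    pull g (f ∘ ψ) x v v =
      Thin.ip (V := Ed n) g (f (ψ x)) (Thin.tmap (V := Ed n) f (ψ x) (Thin.cmap (V := Ed n) ψ x v))
        (Thin.tmap (V := Ed n) f (ψ x) (Thin.cmap (V := Ed n) ψ x v)) := by
  have h1 : MDifferentiableAt (𝓡 n) (𝓡 n) f (ψ x) := (hf (ψ x)).mdifferentiableAt (by simp)
  have h2 : MDifferentiableAt (𝓡 n) (𝓡 n) ψ x := hp.1.self_of_nhds.mdifferentiableAt (by simp)
  have h3 : mfderiv (𝓡 n) (𝓡 n) (f ∘ ψ) x =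
      (mfderiv (𝓡 n) (𝓡 n) f (ψ x)).comp (mfderiv (𝓡 n) (𝓡 n) ψ x) := mfderiv_comp x h1 h2
  have h4 : pull g (f ∘ ψ) x v v =
      g.inner ((f ∘ ψ) x) (mfderiv (𝓡 n) (𝓡 n) (f ∘ ψ) x v)
        (mfderiv (𝓡 n) (𝓡 n) (f ∘ ψ) x v) := rfl
  rw [h4, h3]
  rfl

theorem near_of (lam ε : ℝ) (g₀ g : Met (n := n) E) (f : E → E)
    (hf : ContMDiff (𝓡 n) (𝓡 n) ∞ f) (hl : Thin.LowerBound (V := Ed n) lam g₀ g f)
    (hc : Thin.C1Close (V := Ed n) ε g₀ g f) : Near lam ε g₀ g f := by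
  intro ψ x hp
  refine ⟨fun v => ?_, fun u v w a b ha hb => ?_⟩
  · rw [pull_comp g f hf ψ x hp v]
    exact hl (ψ x) (Thin.cmap (V := Ed n) ψ x v)
  · have hs := smooth_pull g₀ ψ x hp
    have hs' : ContDiffAt ℝ ∞ (pull g (f ∘ ψ)) x :=
      pus n E g (Ed n) (f ∘ ψ) x ((hf (ψ x)).comp x hp.1.self_of_nhds)
    have := hc ψ x (chart_of_par hp) u v w a b ((chris_iff g₀ ψ x hs u v a).2 ha)
      ((chris_iff g₀ ψ x hs u w b).2 hb)
    have h1 := dir_eq hs' v w u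
    have h2 : Thin.Cov (Thin.coef (V := Ed n) g (f ∘ ψ)) x u v w a b =
        cov (pull g (f ∘ ψ)) x u v w a b := by
      unfold cov
      rw [← h1]
      rfl
    rw [h2] at this
    exact this

end Glob

open Pool.Agent.CBG.Thin in
theorem fin_kap (n : ℕ) (E : Type) [TopologicalSpace E] [T2Space E] [CompactSpace E] [Nonempty E]
    [ChartedSpace (Ed n) E] [IsManifold (𝓡 n) ∞ E] [MulAction (Circle × Circle) E]
    (hact : SmoothAlmostFree (Ed n) (Ed 1) Circle E) (g₀ g : Thin.Metric (Ed n) E) (κ ε lam : ℝ)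
    (hsec : SecAtLeast κ g) (hε : 0 ≤ ε) (hlam : 0 < lam)
    (hlow : ∀ θ : Circle × Circle, LowerBound lam g₀ g (fun p => θ • p))
    (hC1 : ∀ θ : Circle × Circle, C1Close ε g₀ g (fun p => θ • p)) :
    κ ≤ 9 / 2 * ε ^ 2 * lam ^ 6 := by
  by_contra hno
  rw [not_le] at hno
  have hK : 0 < κ := lt_of_le_of_lt (by positivity) hno
  have hT := CBG.H87.exp n E hact.1 hact.2
  have hsm := (CBG.H87.vfx n E _ hT).1
  exact qgk _ hT g₀ g κ ε lam hε hlam hK (by linarith)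
    (fun t => near_of lam ε g₀ g _ (hsm t) (hlow _) (hC1 _)) (secGeK_of κ g hsec)

end Pool.Agent.CBG.H94K
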