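import Pool.Agent.CBG.Short
import Pool.Agent.Helper94_CBG.Fin

/-!
# Squad CBG, part B: the theorem with a subspace `L` of `ℝ²` on a closed manifold
-/

set_option autoImplicit false
set_option maxSynthPendingDepth 3

open scoped Manifold ContDiff Topology
open Set Filter

namespace Pool.Agent.CBG.H94

open Pool.Agent.CBG

/-- the minimum of `|V_b(x)| / |b|`, `b` in `L`, on a closed manifold -/
theorem mnl (vfx : VfxStmt) (hct : HctStmt) (n : ℕ) (E : Type) [TopologicalSpace E] [T2Space E]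
    [CompactSpace E] [Nonempty E] [ChartedSpace (Ed n) E] [IsManifold (𝓡 n) ∞ E]
    (Φ : ℝ × ℝ → E → E) (hΦ : TAct (n := n) Φ) (g : Met (n := n) E) (L : Submodule ℝ (ℝ × ℝ))
    (hL : L ≠ ⊥) : ∃ (p : E) (a : ℝ × ℝ), a ∈ L ∧ a ≠ 0 ∧
      ∀ (x : E), ∀ b ∈ L, nsq b * hh g Φ a a p ≤ nsq a * hh g Φ b b x := by
  obtain ⟨-, -, -, -, h5, -⟩ := vfx n E Φ hΦ
  have hsm : ∀ (x : E) (r : ℝ) (b : ℝ × ℝ), hh g Φ (r • b) (r • b) x = r ^ 2 * hh g Φ b b x := by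
    intro x r b
    obtain ⟨s, -, m⟩ := h5 g x
    rw [m, s, m]
    ring
  have hexp : ∀ (x : E) (b : ℝ × ℝ), hh g Φ b b x = b.1 ^ 2 * hh g Φ (1, 0) (1, 0) x +
      2 * (b.1 * b.2) * hh g Φ (1, 0) (0, 1) x + b.2 ^ 2 * hh g Φ (0, 1) (0, 1) x := by
    intro x b
    obtain ⟨s, ad, m⟩ := h5 g x
    have eb : b = b.1 • ((1, 0) : ℝ × ℝ) + b.2 • ((0, 1) : ℝ × ℝ) := by
      ext <;> simp
    have e1 : ∀ c : ℝ × ℝ, hh g Φ b c x = b.1 * hh g Φ (1, 0) c x + b.2 * hh g Φ (0, 1) c x := by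
      intro c
      conv_lhs => rw [eb]
      rw [ad, m, m]
    rw [e1, s (1, 0) b, s (0, 1) b, e1, e1, s (0, 1) (1, 0)]
    ring
  have hcont : Continuous (fun q : (ℝ × ℝ) × E => hh g Φ q.1 q.1 q.2) := by
    have c1 : Continuous (fun q : (ℝ × ℝ) × E => hh g Φ (1, 0) (1, 0) q.2) :=
      (hct n E Φ hΦ g _ _).comp continuous_snd
    have c2 : Continuous (fun q : (ℝ × ℝ) × E => hh g Φ (1, 0) (0, 1) q.2) :=
      (hct n E Φ hΦ g _ _).comp continuous_snd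
    have c3 : Continuous (fun q : (ℝ × ℝ) × E => hh g Φ (0, 1) (0, 1) q.2) :=
      (hct n E Φ hΦ g _ _).comp continuous_snd
    have e : (fun q : (ℝ × ℝ) × E => hh g Φ q.1 q.1 q.2) = fun q : (ℝ × ℝ) × E =>
        q.1.1 ^ 2 * hh g Φ (1, 0) (1, 0) q.2 + 2 * (q.1.1 * q.1.2) * hh g Φ (1, 0) (0, 1) q.2 +
          q.1.2 ^ 2 * hh g Φ (0, 1) (0, 1) q.2 := by
      funext q
      exact hexp q.2 q.1
    rw [e]
    fun_prop
  have hcl : IsClosed (L : Set (ℝ × ℝ)) := Submodule.closed_of_finiteDimensional L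
  have hcomp : IsCompact (({b : ℝ × ℝ | nsq b = 1} ∩ (L : Set (ℝ × ℝ))) ×ˢ (univ : Set E)) :=
    (Pool.Agent.CBG.H16.circle_compact.inter_right hcl).prod isCompact_univ
  obtain ⟨x0⟩ := (inferInstance : Nonempty E)
  obtain ⟨b0, hb0L, hb0⟩ := (Submodule.ne_bot_iff L).1 hL
  have hunit : ∀ b : ℝ × ℝ, b ≠ 0 → nsq ((√(nsq b))⁻¹ • b) = 1 := by
    intro b hb
    have hp := Pool.Agent.CBG.H16.nsq_pos hb
    rw [Pool.Agent.CBG.H16.nsq_smul, inv_pow, Real.sq_sqrt hp.le]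
    field_simp
  have hne : (({b : ℝ × ℝ | nsq b = 1} ∩ (L : Set (ℝ × ℝ))) ×ˢ (univ : Set E)).Nonempty :=
    ⟨((√(nsq b0))⁻¹ • b0, x0), ⟨hunit b0 hb0, L.smul_mem _ hb0L⟩, mem_univ _⟩
  obtain ⟨⟨a, p⟩, ⟨⟨ha, haL⟩, -⟩, hmin⟩ := hcomp.exists_isMinOn hne hcont.continuousOn
  have ha1 : nsq a = 1 := ha
  refine ⟨p, a, haL, ?_, ?_⟩
  · rintro rfl
    simp [nsq] at ha1
  · intro x b hbL
    rw [ha1, one_mul]
    by_cases hb : b = 0
    · have h0 : hh g Φ b b x = 0 := by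
        have := hsm x 0 b
        rw [zero_smul] at this
        rw [hb]
        simpa using this
      rw [h0, hb]
      simp [nsq]
    · have hp := Pool.Agent.CBG.H16.nsq_pos hb
      have h1 : hh g Φ a a p ≤ hh g Φ ((√(nsq b))⁻¹ • b) ((√(nsq b))⁻¹ • b) x :=
        hmin (a := ((√(nsq b))⁻¹ • b, x)) ⟨⟨hunit b hb, L.smul_mem _ hbL⟩, mem_univ _⟩
      rw [hsm, inv_pow, Real.sq_sqrt hp.le] at h1
      calc nsq b * hh g Φ a a p ≤ nsq b * ((nsq b)⁻¹ * hh g Φ b b x) :=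
            mul_le_mul_of_nonneg_left h1 hp.le
        _ = hh g Φ b b x := by
          field_simp

/-- the theorem for a subspace `L`, old definitions -/
theorem thu (n : ℕ) (E : Type) [TopologicalSpace E] [T2Space E] [CompactSpace E] [Nonempty E]
    [ChartedSpace (Ed n) E] [IsManifold (𝓡 n) ∞ E] (Φ : ℝ × ℝ → E → E) (hΦ : TAct (n := n) Φ)
    (g : Met (n := n) E) (L : Submodule ℝ (ℝ × ℝ)) (hL : L ≠ ⊥)
    (hodd : Odd (n + Module.finrank ℝ L))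
    (hA : ∀ t ∈ L, ∀ (x : E) (u : TangentSpace (𝓡 n) x), Hor g Φ L x u →
      Hor g Φ L (Φ t x) (mfderiv (𝓡 n) (𝓡 n) (Φ t) x u))
    (hB : ∀ (x : E), ∀ a ∈ L, a ≠ 0 → ∃ p : E, hh g Φ a a p ≤ hh g Φ a a x ∧
      ∀ t ∈ L, ∀ u : TangentSpace (𝓡 n) p, Hor g Φ L p u → Exp g (Φ t) p u) : ¬ SecPos g := by
  obtain ⟨x0, a, haL, ha0, hmin⟩ := mnl CBG.H87.vfx CBG.H87.hct n E Φ hΦ g L hL
  obtain ⟨p, hp, hexp⟩ := hB x0 a haL ha0
  refine thh n E Φ hΦ g L a p hodd haL ha0 hA ?_ hexp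
  intro x b hb
  refine le_trans (mul_le_mul_of_nonneg_left hp ?_) (hmin x b hb)
  unfold nsq
  positivity

end Pool.Agent.CBG.H94
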